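import Pool.Agent.V11121.MaxDet.Base

/-!
# The determinant-maximising matrix of a graph can have negative entries

The graph has six base vertices `0, ..., 5` (indices modulo 6), the edges `{i, i+2}`, and `400`
further vertices joined to `i` and `i+1` for each `i`.  For a suitable `x` in `(0, 1)` the
`(0, 3)` entry of the determinant-maximising matrix is negative.
-/

namespace Pool.Agent.Results.MP_e7c87c_co.NegativeEntry

open Matrix Finset Pool.Agent.V11121.MaxDet

/-- The set `𝒜(G, x)`: positive definite real symmetric matrices with unit diagonal and with the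
entry `x` at every edge. -/
def InA {V : Type} [Fintype V] [DecidableEq V] (G : SimpleGraph V) (x : ℝ)
    (M : Matrix V V ℝ) : Prop :=
  M.PosDef ∧ (∀ v, M v v = 1) ∧ ∀ u v, G.Adj u v → M u v = x

/-- `M` is the element of `𝒜(G, x)` of maximal determinant: every other element of `𝒜(G, x)` has
smaller determinant. -/
def IsMaxDet {V : Type} [Fintype V] [DecidableEq V] (G : SimpleGraph V) (x : ℝ)
    (M : Matrix V V ℝ) : Prop :=
  InA G x M ∧ ∀ M', InA G x M' → M' ≠ M → M'.det < M.det

/-- The graph. -/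
def GG (N : ℕ) : SimpleGraph (Fin 6 ⊕ (Fin 6 × Fin N)) where
  Adj
    | .inl i, .inl j => j = i + 2 ∨ i = j + 2
    | .inl j, .inr w => j = w.1 ∨ j = w.1 + 1
    | .inr w, .inl j => j = w.1 ∨ j = w.1 + 1
    | .inr _, .inr _ => False
  symm := ⟨by
    rintro (i | w) (j | w') h
    · exact h.symm
    · exact h
    · exact h
    · exact h⟩
  loopless := ⟨by
    rintro (i | w) h
    · simp only [or_self] at h
      revert i
      decide
    · exact h⟩

theorem connected {N : ℕ} (hN : 0 < N) : (GG N).Connected := by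
  have h1 : ∀ i : Fin 6, (GG N).Reachable (.inl i) (.inl (i + 1)) := by
    intro i
    have a1 : (GG N).Adj (.inl i) (.inr (i, ⟨0, hN⟩)) := Or.inl rfl
    have a2 : (GG N).Adj (.inr (i, ⟨0, hN⟩)) (.inl (i + 1)) := Or.inr rfl
    exact a1.reachable.trans a2.reachable
  have h2 : ∀ i : Fin 6, (GG N).Reachable (.inl 0) (.inl i) := by
    have b0 : (GG N).Reachable (.inl 0) (.inl 0) := SimpleGraph.Reachable.refl _
    have b1 := b0.trans (h1 0)
    have b2 := b1.trans (h1 1)
    have b3 := b2.trans (h1 2)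
    have b4 := b3.trans (h1 3)
    have b5 := b4.trans (h1 4)
    intro i
    fin_cases i
    · exact b0
    · exact b1
    · exact b2
    · exact b3
    · exact b4
    · exact b5
  have h3 : ∀ u, (GG N).Reachable (.inl 0) u := by
    rintro (i | w)
    · exact h2 i
    · have a1 : (GG N).Adj (.inl w.1) (.inr w) := Or.inl rfl
      exact (h2 w.1).trans a1.reachable
  have : Nonempty (Fin 6 ⊕ (Fin 6 × Fin N)) := ⟨.inl 0⟩
  exact ⟨fun u v => (h3 u).symm.trans (h3 v)⟩

/-- Every member of the class with the right entries is beaten by `MM`. -/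
theorem main {N : ℕ} {x y z a b c α δ : ℝ} (e0 : a + 2 * b * y + 2 * c * x = 1)
    (e1 : a * y + b * (1 + x) + c * (y + z) = 0) (e2 : a * x + b * (y + z) + c * (1 + x) = 0)
    (e3 : a * z + 2 * b * x + 2 * c * y = 0) (h0 : 0 ≤ 1 + 2 * y + 2 * x + z)
    (h1 : 0 ≤ 1 + y - x - z) (h2 : 0 ≤ 1 - y - x + z) (h3 : 0 ≤ 1 - 2 * y + 2 * x - z)
    (hα : α * (1 + y) = x) (hδ : δ = 1 - 2 * α * x) (hδ0 : 0 < δ) (hb : b + N * (α ^ 2 / δ) = 0) :
    IsMaxDet (GG N) x (MM N x y z α δ) := by
  have hKM : KK N a b c α δ * MM N x y z α δ = 1 := KK_mul_MM hδ0.ne' (Kb_mul_Mb e0 e1 e2 e3)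
  have hpsd := MM_psd (N := N) (α := α) (Mb_psd h0 h1 h2 h3) hδ0.le
  have hpd : (MM N x y z α δ).PosDef := by
    rw [hpsd.posDef_iff_det_ne_zero]
    intro hdet
    have := congrArg Matrix.det hKM
    rw [Matrix.det_mul, hdet, mul_zero, Matrix.det_one] at this
    exact zero_ne_one this
  have hdiag : ∀ v, MM N x y z α δ v v = 1 := by
    rintro (i | w)
    · simp [MM, Mb]
    · obtain ⟨k, s⟩ := w
      have : MM N x y z α δ (.inr (k, s)) (.inr (k, s)) =
          α ^ 2 * (Cm N * Mb x y z * (Cm N)ᵀ) (k, s) (k, s) + δ := by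
        simp [MM]
      rw [this]
      have e : (Cm N * Mb x y z * (Cm N)ᵀ) (k, s) (k, s) = 2 + 2 * y := by
        simp only [Matrix.mul_apply, Matrix.transpose_apply, Fin.sum_univ_six, Cm, Mb,
          Matrix.of_apply]
        fin_cases k <;> simp <;> ring
      rw [e, hδ]
      have : α ^ 2 * (2 + 2 * y) = 2 * α * (α * (1 + y)) := by ring
      rw [this, hα]
      ring
  have hsym : ∀ u v, MM N x y z α δ u v = MM N x y z α δ v u := by
    intro u v
    have := hpd.isHermitian.apply u v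
    simpa using this.symm
  have hbg : ∀ (j : Fin 6) (w : Fin 6 × Fin N), (j = w.1 ∨ j = w.1 + 1) →
      MM N x y z α δ (.inl j) (.inr w) = x := by
    rintro j ⟨k, s⟩ h
    have : MM N x y z α δ (.inl j) (.inr (k, s)) = α * (Mb x y z * (Cm N)ᵀ) j (k, s) := by
      simp [MM]
    rw [this]
    have e : (Mb x y z * (Cm N)ᵀ) j (k, s) = 1 + y := by
      simp only [Matrix.mul_apply, Matrix.transpose_apply, Fin.sum_univ_six, Cm, Mb,
        Matrix.of_apply]
      simp only at h
      rcases h with rfl | rfl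
      · fin_cases j <;> simp
        all_goals ring
      · fin_cases k <;> simp
        all_goals ring
    rw [e, hα]
  have hedge : ∀ u v, (GG N).Adj u v → MM N x y z α δ u v = x := by
    rintro (i | w) (j | w') h
    · have h' : j = i + 2 ∨ i = j + 2 := h
      have e : MM N x y z α δ (.inl i) (.inl j) = Mb x y z i j := rfl
      rw [e]
      simp only [Mb, Matrix.of_apply]
      rcases h' with rfl | rfl
      · fin_cases i <;> simp
      · fin_cases j <;> simp
    · exact hbg i w' h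
    · rw [hsym]
      exact hbg j w h
    · exact absurd h (fun h => h)
  refine ⟨⟨hpd, hdiag, hedge⟩, fun M' hM' hne => kkt hpd hKM hM'.1 ?_ hne⟩
  have key : ∀ u v, (u = v ∨ (GG N).Adj u v) ∨ KK N a b c α δ u v = 0 := by
    rintro (i | w) (j | w')
    · have e : KK N a b c α δ (.inl i) (.inl j) =
          ![a, b, c, 0, c, b] (i - j) + (α ^ 2 / δ) * (N * ![(2 : ℝ), 1, 0, 0, 0, 1] (i - j)) := by
        rw [← CtC]
        simp [KK, Kb]
      rw [e]
      have hd : ∀ i j : Fin 6, (i = j ∨ (j = i + 2 ∨ i = j + 2)) ∨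
          ((i - j = 1 ∨ i - j = 5) ∨ i - j = 3) := by decide
      rcases hd i j with (h | h) | ((h | h) | h)
      · left
        left
        rw [h]
      · left
        right
        exact h
      · right
        rw [h]
        have e4 : ![a, b, c, 0, c, b] 1 = b := rfl
        have e5 : ![(2 : ℝ), 1, 0, 0, 0, 1] 1 = 1 := rfl
        rw [e4, e5, ← hb]
        ring
      · right
        rw [h]
        have e4 : ![a, b, c, 0, c, b] 5 = b := rfl
        have e5 : ![(2 : ℝ), 1, 0, 0, 0, 1] 5 = 1 := rfl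
        rw [e4, e5, ← hb]
        ring
      · right
        rw [h]
        have e4 : ![a, b, c, 0, c, b] 3 = 0 := rfl
        have e5 : ![(2 : ℝ), 1, 0, 0, 0, 1] 3 = 0 := rfl
        rw [e4, e5]
        ring
    · by_cases h : i = w'.1 ∨ i = w'.1 + 1
      · exact Or.inl (Or.inr h)
      · right
        simp [KK, Cm, h]
    · by_cases h : j = w.1 ∨ j = w.1 + 1
      · exact Or.inl (Or.inr h)
      · right
        simp [KK, Cm, h]
    · by_cases h : w = w'
      · exact Or.inl (Or.inl (by rw [h]))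
      · right
        simp [KK, h]
  intro u v
  rcases key u v with (rfl | h) | h
  · right
    rw [hM'.2.1, hdiag]
  · right
    rw [hM'.2.2 u v h, hedge u v h]
  · exact Or.inl h

/-- There are a connected graph `G`, a number `0 < x < 1` and two vertices `u`, `v` for which the
`(u, v)` entry of the matrix of maximal determinant in `𝒜(G, x)` is negative. -/
theorem result : ∃ (V : Type) (_ : Fintype V) (_ : DecidableEq V) (G : SimpleGraph V),
    G.Connected ∧ ∃ x : ℝ, 0 < x ∧ x < 1 ∧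
      ∃ M : Matrix V V ℝ, IsMaxDet G x M ∧ ∃ u v, M u v < 0 := by
  obtain ⟨t, ht, hf⟩ : ∃ t ∈ Set.Icc (8 : ℝ) 10,
      (t - 4) * (34 * t ^ 2 - 61 * t - 60) *
        (5 * (2 * t ^ 2 + t - 12) * (34 * t ^ 2 - 61 * t - 60) - (2 * t ^ 2 - 17 * t + 60) ^ 2) -
      72 * 400 * t * (2 * t - 5) * (2 * t ^ 2 - 17 * t + 60) ^ 2 = 0 := by
    have hc : ContinuousOn (fun t : ℝ => (t - 4) * (34 * t ^ 2 - 61 * t - 60) *
        (5 * (2 * t ^ 2 + t - 12) * (34 * t ^ 2 - 61 * t - 60) - (2 * t ^ 2 - 17 * t + 60) ^ 2) -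
      72 * 400 * t * (2 * t - 5) * (2 * t ^ 2 - 17 * t + 60) ^ 2) (Set.Icc 8 10) := by fun_prop
    obtain ⟨t, ht, h0⟩ := intermediate_value_Icc (by norm_num) hc
      (show (0 : ℝ) ∈ Set.Icc _ _ from ⟨by norm_num, by norm_num⟩)
    exact ⟨t, ht, h0⟩
  obtain ⟨ht1, ht2⟩ := ht
  obtain ⟨P, hP⟩ : ∃ P, P = 2 * t ^ 2 + t - 12 := ⟨_, rfl⟩
  obtain ⟨Q, hQ⟩ : ∃ Q, Q = 34 * t ^ 2 - 61 * t - 60 := ⟨_, rfl⟩
  obtain ⟨X, hX⟩ : ∃ X, X = 2 * t ^ 2 - 17 * t + 60 := ⟨_, rfl⟩
  have hP0 : 0 < P := by rw [hP]; nlinarith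
  have hQ0 : 0 < Q := by rw [hQ]; nlinarith
  have hX0 : 0 < X := by rw [hX]; nlinarith [sq_nonneg (2 * t - 17 / 2)]
  have hXP : X < P := by rw [hX, hP]; nlinarith
  have hXQ : X < Q := by rw [hX, hQ]; nlinarith
  have hD0 : 0 < 5 * P * Q - X ^ 2 := by nlinarith
  have ht0 : 0 < t := by linarith
  have ht5 : 0 < 2 * t - 5 := by linarith
  rw [← hP, ← hQ, ← hX] at hf
  have hmain := main (N := 400) (x := X / (10 * P)) (y := (14 * t ^ 2 - 71 * t + 60) / (10 * P))
    (z := -2 * (2 * t - 15) * (t - 4) / (10 * P))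
    (a := 10 * P * (2 * t + 3) / (216 * t * (2 * t - 5)))
    (b := 10 * P * (4 - t) / (144 * t * (2 * t - 5)))
    (c := 10 * P * (t - 6) / (432 * t * (2 * t - 5)))
    (α := X / Q) (δ := (5 * P * Q - X ^ 2) / (5 * P * Q))
    ?_ ?_ ?_ ?_ ?_ ?_ ?_ ?_ ?_ ?_ ?_ ?_
  · refine ⟨Fin 6 ⊕ (Fin 6 × Fin 400), inferInstance, inferInstance, GG 400,
      connected (by norm_num), _, ?_, ?_, _, hmain, .inl 0, .inl 3, ?_⟩
    · positivity
    · rw [div_lt_one (by positivity)]
      linarith
    · have e : MM 400 (X / (10 * P)) ((14 * t ^ 2 - 71 * t + 60) / (10 * P))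
        (-2 * (2 * t - 15) * (t - 4) / (10 * P)) (X / Q) ((5 * P * Q - X ^ 2) / (5 * P * Q))
        (.inl 0) (.inl 3) = -2 * (2 * t - 15) * (t - 4) / (10 * P) := rfl
      rw [e]
      apply div_neg_of_neg_of_pos _ (by positivity)
      nlinarith
  · field_simp
    rw [hP, hX]
    ring
  · field_simp
    rw [hP, hX]
    ring
  · field_simp
    rw [hP, hX]
    ring
  · field_simp
    rw [hX]
    ring
  · have : 1 + 2 * ((14 * t ^ 2 - 71 * t + 60) / (10 * P)) + 2 * (X / (10 * P)) +
        -2 * (2 * t - 15) * (t - 4) / (10 * P) = 24 * t * (2 * t - 5) / (10 * P) := by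
      field_simp
      rw [hP, hX]
      ring
    rw [this]
    positivity
  · have : 1 + (14 * t ^ 2 - 71 * t + 60) / (10 * P) - X / (10 * P) -
        -2 * (2 * t - 15) * (t - 4) / (10 * P) = 18 * t * (2 * t - 5) / (10 * P) := by
      field_simp
      rw [hP, hX]
      ring
    rw [this]
    positivity
  · have : 1 - (14 * t ^ 2 - 71 * t + 60) / (10 * P) - X / (10 * P) +
        -2 * (2 * t - 15) * (t - 4) / (10 * P) = 72 * (2 * t - 5) / (10 * P) := by
      field_simp
      rw [hP, hX]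
      ring
    rw [this]
    positivity
  · have : 1 - 2 * ((14 * t ^ 2 - 71 * t + 60) / (10 * P)) + 2 * (X / (10 * P)) -
        -2 * (2 * t - 15) * (t - 4) / (10 * P) = 72 * t / (10 * P) := by
      field_simp
      rw [hP, hX]
      ring
    rw [this]
    positivity
  · have : 1 + (14 * t ^ 2 - 71 * t + 60) / (10 * P) = Q / (10 * P) := by
      field_simp
      rw [hP, hQ]
      ring
    rw [this]
    field_simp
  · field_simp
    ring
  · positivity
  · push_cast
    obtain ⟨D, hD⟩ : ∃ D, D = 5 * P * Q - X ^ 2 := ⟨_, rfl⟩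
    obtain ⟨E, hE⟩ : ∃ E, E = 2 * t - 5 := ⟨_, rfl⟩
    rw [← hD] at hD0 hf
    rw [← hE] at ht5 hf
    rw [← hD, ← hE]
    field_simp
    linear_combination (-10 * P) * hf

end Pool.Agent.Results.MP_e7c87c_co.NegativeEntry
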